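import Mathlib
import Pool.Agent.H.MP_e5d137_al.G3.Fin2

/-!
# The higher-dimensional isoperimetric functions of `GL(3,ℤ)`
-/

open Pool.Agent.H.MP_e5d137_al
open scoped ENNReal

/-- The `m`-dimensional homological isoperimetric function of `GL(3,ℤ)` is equivalent to
`L^{4/3}` for `m = 2` and linear for `m ≥ 3`. -/
theorem Pool.Agent.Results.MP_e5d137_al.GL3Exact.result
    (K : GComplex (Matrix.GeneralLinearGroup (Fin 3) ℤ)) :
    (K.FiniteTo 3 →
      Dominated (fun L => (K.iso 2 L : ℝ≥0∞))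
        (fun L => ENNReal.ofReal ((L : ℝ) ^ ((4 : ℝ) / 3))) ∧
      Dominated (fun L => ENNReal.ofReal ((L : ℝ) ^ ((4 : ℝ) / 3)))
        (fun L => (K.iso 2 L : ℝ≥0∞))) ∧
    ∀ m : ℕ, 3 ≤ m → K.FiniteTo (m + 1) →
      Dominated (fun L => (K.iso m L : ℝ≥0∞)) (fun _ => 0) :=
  ⟨fun hK => ⟨upper_two K hK, lower_two K hK⟩, fun m hm hK => upper_high K m hm hK⟩
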